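import Pool.Agent.Y98.AF.L1a
import Pool.Agent.Y363.AF.Log

/-!
# Project AF, part 2: the first part of the coefficient converges
-/

set_option autoImplicit false

open Filter Finset
open scoped Topology

namespace Pool.Agent.Y98.AF

open Pool.Agent.Y16.AF
open Pool.Agent.Y363.AF (pe pe_apply)
open Pool.Agent.Y901.AF (cos_ang low_bound)

noncomputable section

/-- the length of an integer point -/
def nn (n : Fin 3 → ℤ) : ℝ := Real.sqrt (∑ j, (n j : ℝ) ^ 2)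

lemma en_eq {M : ℕ} [NeZero M] (k : Sp M) : en k = EE (kp M (ir k)) := by
  have h : wh2 k = W2 (kp M (ir k)) := by
    unfold wh2 W2
    refine Finset.sum_congr rfl fun j _ => ?_
    rw [cos_ang]
    rfl
  unfold en EE
  rw [h]

lemma sin_eq {M : ℕ} [NeZero M] (k : Sp M) :
    Real.sin (ang k 0) ^ 2 = Real.sin (kp M (ir k) 0) ^ 2 := by
  rw [Real.sin_sq, Real.sin_sq, cos_ang]
  rfl

lemma ir_ne {M : ℕ} [NeZero M] {k : Sp M} (hk : k ≠ 0) : ir k ≠ 0 := by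
  intro h
  apply hk
  funext j
  have := congrFun h j
  exact (ZMod.valMinAbs_eq_zero _).1 this

lemma sum_sq_pos {n : Fin 3 → ℤ} (hn : n ≠ 0) : 0 < ∑ j, (n j : ℝ) ^ 2 := by
  obtain ⟨j, hj⟩ : ∃ j, n j ≠ 0 := by
    by_contra hcon
    push Not at hcon
    exact hn (funext hcon)
  have hj' : (n j : ℝ) ≠ 0 := Int.cast_ne_zero.2 hj
  exact Finset.sum_pos' (fun i _ => sq_nonneg _) ⟨j, Finset.mem_univ _, by positivity⟩

lemma one_le_sum_sq {n : Fin 3 → ℤ} (hn : n ≠ 0) : 1 ≤ ∑ j, (n j : ℝ) ^ 2 := by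
  have h := sum_sq_pos hn
  have h1 : (0 : ℤ) < ∑ j, (n j) ^ 2 := by exact_mod_cast h
  have h2 : (1 : ℤ) ≤ ∑ j, (n j) ^ 2 := h1
  exact_mod_cast h2

lemma R2_kp (M : ℕ) (n : Fin 3 → ℤ) :
    R2 (kp M n) = (2 * Real.pi / M) ^ 2 * ∑ j, (n j : ℝ) ^ 2 := by
  unfold R2 kp
  rw [Finset.mul_sum]
  exact Finset.sum_congr rfl fun j _ => by ring

/-- the summand of the first part -/
def FA (M : ℕ) (n : Fin 3 → ℤ) : ℝ :=
  2 * Real.sin (kp M n 0) ^ 2 * (VV M (EE (kp M n)) -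
    M * (Real.cosh (EE (kp M n)) / (4 * Real.sinh (EE (kp M n)) ^ 5))) / (M : ℝ) ^ 4

lemma FA_bound {C0 : ℝ} (hC : ∀ (L : ℕ), 2 ≤ L → ∀ ω : ℝ, 0 < ω → ω ≤ 3 → 1 ≤ ω * L →
      |VV L ω - L * (Real.cosh ω / (4 * Real.sinh ω ^ 5))| ≤ C0 / ω ^ 6)
    (M : ℕ) (n : Fin 3 → ℤ) (hn : n ≠ 0) (h : ∀ j, 2 * |n j| ≤ (M : ℤ)) :
    |FA M n| ≤ (8 * Real.pi ^ 2 * |C0| * KM ^ 3 / 4096) / (∑ j, (n j : ℝ) ^ 2) ^ 2 := by
  have hpi := Real.pi_pos
  have hM2 : 2 ≤ M := by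
    obtain ⟨j, hj⟩ : ∃ j, n j ≠ 0 := by
      by_contra hcon
      push Not at hcon
      exact hn (funext hcon)
    have h1 := h j
    have h2 : 0 < |n j| := abs_pos.2 hj
    omega
  have hMr : (2 : ℝ) ≤ M := by exact_mod_cast hM2
  have hM0 : (0 : ℝ) < M := by linarith
  have hN := one_le_sum_sq hn
  set N : ℝ := ∑ j, (n j : ℝ) ^ 2 with hNd
  have hκ : ∀ j, |kp M n j| ≤ Real.pi := by
    intro j
    unfold kp
    rw [abs_mul, abs_of_pos (show 0 < 2 * Real.pi / (M : ℝ) by positivity)]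
    have h1 : (2 : ℝ) * |(n j : ℝ)| ≤ M := by exact_mod_cast h j
    calc 2 * Real.pi / M * |(n j : ℝ)| = Real.pi / M * (2 * |(n j : ℝ)|) := by ring
      _ ≤ Real.pi / M * M := by gcongr
      _ = Real.pi := by field_simp
  have hR := R2_kp M n
  rw [← hNd] at hR
  have hW : 16 * N / M ^ 2 ≤ W2 (kp M n) := by
    have := W2_ge hκ
    rw [hR] at this
    refine le_trans (le_of_eq ?_) this
    field_simp
    ring
  have hW0 : 0 < W2 (kp M n) := lt_of_lt_of_le (by positivity) hW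
  obtain ⟨hE0, hch, hE3, hKM⟩ := EE_facts hW0
  have hlow : 1 ≤ EE (kp M n) * M := low_bound hMr hE0 hch (le_trans (by gcongr; linarith) hW)
  have hV := hC M hM2 (EE (kp M n)) hE0 hE3 hlow
  set E := EE (kp M n) with hE
  have hK := KM_pos
  have h16 : 16 * N ≤ KM * M ^ 2 * E ^ 2 := by
    have h1 := hW.trans hKM
    rw [div_le_iff₀ (by positivity)] at h1
    linarith
  have h6 : (16 * N) ^ 3 ≤ KM ^ 3 * M ^ 6 * E ^ 6 := by
    calc (16 * N) ^ 3 ≤ (KM * M ^ 2 * E ^ 2) ^ 3 := pow_le_pow_left₀ (by positivity) h16 3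
      _ = KM ^ 3 * M ^ 6 * E ^ 6 := by ring
  have hV' : |VV M E - M * (Real.cosh E / (4 * Real.sinh E ^ 5))| ≤
      |C0| * (KM ^ 3 * M ^ 6 / (4096 * N ^ 3)) := by
    refine hV.trans ?_
    calc C0 / E ^ 6 ≤ |C0| / E ^ 6 := by gcongr; exact le_abs_self C0
      _ = |C0| * (1 / E ^ 6) := by ring
      _ ≤ |C0| * (KM ^ 3 * M ^ 6 / (4096 * N ^ 3)) := by
        apply mul_le_mul_of_nonneg_left _ (abs_nonneg _)
        rw [div_le_div_iff₀ (by positivity) (by positivity)]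
        calc 1 * (4096 * N ^ 3) = (16 * N) ^ 3 := by ring
          _ ≤ KM ^ 3 * M ^ 6 * E ^ 6 := h6
  have hs : Real.sin (kp M n 0) ^ 2 ≤ (2 * Real.pi / M) ^ 2 * N := by
    have h1 : Real.sin (kp M n 0) ^ 2 ≤ kp M n 0 ^ 2 := by
      rw [← sq_abs, ← sq_abs (kp M n 0)]
      exact pow_le_pow_left₀ (abs_nonneg _) Real.abs_sin_le_abs 2
    exact (h1.trans (sq_le_R2 _ 0)).trans hR.le
  unfold FA
  rw [abs_div, abs_mul, abs_of_nonneg (show 0 ≤ 2 * Real.sin (kp M n 0) ^ 2 by positivity),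
    abs_of_pos (show 0 < (M : ℝ) ^ 4 by positivity)]
  calc 2 * Real.sin (kp M n 0) ^ 2 * |VV M E - M * (Real.cosh E / (4 * Real.sinh E ^ 5))| / M ^ 4
      ≤ 2 * ((2 * Real.pi / M) ^ 2 * N) * (|C0| * (KM ^ 3 * M ^ 6 / (4096 * N ^ 3))) / M ^ 4 := by
        gcongr
    _ = _ := by
        field_simp
        ring

/-! ### limits -/

lemma lim_deriv {f : ℝ → ℝ} {f' : ℝ} (hf : HasDerivAt f f' 0) (h0 : f 0 = 0) {d : ℕ → ℝ} {a : ℝ}
    (hd : Tendsto (fun M : ℕ => (M : ℝ) * d M) atTop (𝓝 a)) :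
    Tendsto d atTop (𝓝 0) ∧ Tendsto (fun M : ℕ => (M : ℝ) * f (d M)) atTop (𝓝 (f' * a)) := by
  have hd0 : Tendsto d atTop (𝓝 0) := by
    have h1 : Tendsto (fun M : ℕ => ((M : ℝ) * d M) * (1 / (M : ℝ))) atTop (𝓝 (a * 0)) :=
      hd.mul tendsto_one_div_atTop_nhds_zero_nat
    rw [mul_zero] at h1
    refine h1.congr' ?_
    filter_upwards [eventually_gt_atTop 0] with M hM
    have : (M : ℝ) ≠ 0 := by positivity
    field_simp
  refine ⟨hd0, ?_⟩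
  have h1 := (hf.hasDerivWithinAt (s := Set.univ)).hasFDerivWithinAt.lim hd0 (by simp)
    (c := fun M : ℕ => (M : ℝ)) hd
  simpa [h0, mul_comm] using h1

lemma tendsto_kp (n : Fin 3 → ℤ) (j : Fin 3) (c : ℝ) :
    Tendsto (fun M : ℕ => (M : ℝ) * (c * kp M n j)) atTop (𝓝 (c * (2 * Real.pi * n j))) := by
  refine tendsto_const_nhds.congr' ?_
  filter_upwards [eventually_gt_atTop 0] with M hM
  have : (M : ℝ) ≠ 0 := by positivity
  unfold kp
  field_simp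

lemma lim_sin (n : Fin 3 → ℤ) (j : Fin 3) (c : ℝ) :
    Tendsto (fun M : ℕ => (M : ℝ) * Real.sin (c * kp M n j)) atTop
      (𝓝 (c * (2 * Real.pi * n j))) := by
  have h := (lim_deriv (f := Real.sin) (f' := 1) (by simpa using Real.hasDerivAt_sin 0) Real.sin_zero
    (tendsto_kp n j c)).2
  rwa [one_mul] at h

/-- the limit of the scaled energy -/
def qq (n : Fin 3 → ℤ) : ℝ := Real.sqrt (∑ j, (2 * Real.pi * n j) ^ 2)

lemma qq_pos {n : Fin 3 → ℤ} (hn : n ≠ 0) : 0 < qq n := by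
  apply Real.sqrt_pos.2
  have h1 : ∑ j, (2 * Real.pi * (n j : ℝ)) ^ 2 = (2 * Real.pi) ^ 2 * ∑ j, (n j : ℝ) ^ 2 := by
    rw [Finset.mul_sum]
    exact Finset.sum_congr rfl fun j _ => by ring
  rw [h1]
  have := sum_sq_pos hn
  have := Real.pi_pos
  positivity

lemma lim_W (n : Fin 3 → ℤ) :
    Tendsto (fun M : ℕ => (M : ℝ) * Real.sqrt (W2 (kp M n))) atTop (𝓝 (qq n)) := by
  have h1 : Tendsto (fun M : ℕ => (M : ℝ) ^ 2 * W2 (kp M n)) atTop
      (𝓝 (∑ j, (2 * Real.pi * n j) ^ 2)) := by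
    have h2 : ∀ j ∈ (Finset.univ : Finset (Fin 3)),
        Tendsto (fun M : ℕ => 4 * ((M : ℝ) * Real.sin (1 / 2 * kp M n j)) ^ 2) atTop
          (𝓝 ((2 * Real.pi * n j) ^ 2)) := by
      intro j _
      have h3 := ((lim_sin n j (1 / 2)).pow 2).const_mul 4
      have e : 4 * (1 / 2 * (2 * Real.pi * (n j : ℝ))) ^ 2 = (2 * Real.pi * n j) ^ 2 := by ring
      rwa [e] at h3
    refine (tendsto_finset_sum _ h2).congr fun M => ?_
    unfold W2
    rw [Finset.mul_sum]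
    refine Finset.sum_congr rfl fun j _ => ?_
    have h4 : Real.cos (kp M n j) = 1 - 2 * Real.sin (1 / 2 * kp M n j) ^ 2 := by
      have h5 := Real.cos_two_mul (1 / 2 * kp M n j)
      have h6 := Real.sin_sq_add_cos_sq (1 / 2 * kp M n j)
      rw [show 2 * (1 / 2 * kp M n j) = kp M n j by ring] at h5
      rw [h5]
      linarith
    rw [h4]
    ring
  have h2 := (Real.continuous_sqrt.tendsto _).comp h1
  refine h2.congr fun M => ?_
  simp only [Function.comp]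
  rw [Real.sqrt_mul (by positivity), Real.sqrt_sq (Nat.cast_nonneg M)]

lemma lim_E (n : Fin 3 → ℤ) :
    Tendsto (fun M : ℕ => (M : ℝ) * EE (kp M n)) atTop (𝓝 (qq n)) := by
  have h1 : Tendsto (fun M : ℕ => (M : ℝ) * (Real.sqrt (W2 (kp M n)) / 2)) atTop
      (𝓝 (qq n / 2)) := by
    refine ((lim_W n).div_const 2).congr fun M => ?_
    ring
  have h2 := (lim_deriv (f := Real.arsinh) (f' := 1) (by simpa using Real.hasDerivAt_arsinh 0)
    Real.arsinh_zero h1).2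
  have h3 := h2.const_mul 2
  have e : 2 * (1 * (qq n / 2)) = qq n := by ring
  rw [e] at h3
  refine h3.congr fun M => ?_
  unfold EE
  ring

lemma FA_lim {ρ : ℝ → ℝ} (hρ : ∀ (p : ℕ → ℝ) (q : ℝ), 0 < q → Tendsto p atTop (𝓝 q) →
      Tendsto (fun L : ℕ => VV L (p L / L) / (L : ℝ) ^ 6) atTop (𝓝 (ρ q)))
    (n : Fin 3 → ℤ) (hn : n ≠ 0) :
    Tendsto (fun M => FA M n) atTop
      (𝓝 (2 * (1 * (2 * Real.pi * n 0)) ^ 2 * (ρ (qq n) - 1 / (4 * qq n ^ 5)))) := by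
  have hq := qq_pos hn
  have hE := lim_E n
  obtain ⟨hE0, hsh⟩ := lim_deriv (f := Real.sinh) (f' := 1) (by simpa using Real.hasDerivAt_sinh 0)
    Real.sinh_zero hE
  rw [one_mul] at hsh
  have hch : Tendsto (fun M : ℕ => Real.cosh (EE (kp M n))) atTop (𝓝 1) := by
    have := (Real.continuous_cosh.tendsto 0).comp hE0
    rwa [Real.cosh_zero] at this
  have hVV : Tendsto (fun M : ℕ => VV M (EE (kp M n)) / (M : ℝ) ^ 6) atTop (𝓝 (ρ (qq n))) := by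
    refine (hρ _ _ hq hE).congr' ?_
    filter_upwards [eventually_gt_atTop 0] with M hM
    have : (M : ℝ) ≠ 0 := by positivity
    rw [mul_div_cancel_left₀ _ this]
  have hsin := lim_sin n 0 1
  have h1 := ((hsin.pow 2).const_mul 2).mul (hVV.sub (hch.div ((hsh.pow 5).const_mul 4)
    (by positivity)))
  refine h1.congr' ?_
  filter_upwards [eventually_gt_atTop 0] with M hM
  have : (M : ℝ) ≠ 0 := by positivity
  unfold FA
  simp only [Pi.div_apply, one_mul, mul_pow]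
  have e : Real.cosh (EE (kp M n)) / (4 * ((M : ℝ) ^ 5 * Real.sinh (EE (kp M n)) ^ 5)) =
      (Real.cosh (EE (kp M n)) / (4 * Real.sinh (EE (kp M n)) ^ 5)) / (M : ℝ) ^ 5 := by
    rw [div_div]
    congr 1
    ring
  rw [e]
  generalize Real.cosh (EE (kp M n)) / (4 * Real.sinh (EE (kp M n)) ^ 5) = v
  field_simp

/-! ### symmetry -/

lemma symm3 (M : ℕ) [NeZero M] :
    3 * ∑ k ∈ nz M, (ir k 0 : ℝ) ^ 2 / nn (ir k) ^ 5 = ∑ k ∈ nz M, 1 / nn (ir k) ^ 3 := by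
  have hnn : ∀ (σ : Equiv.Perm (Fin 3)) (k : Sp M), nn (ir (pe σ k)) = nn (ir k) := by
    intro σ k
    unfold nn ir
    simp only [pe_apply]
    congr 1
    exact Equiv.sum_comp σ.symm (fun j => ((((k j).valMinAbs : ℤ) : ℝ)) ^ 2)
  have hp : ∀ j : Fin 3, ∑ k ∈ nz M, (ir k 0 : ℝ) ^ 2 / nn (ir k) ^ 5 =
      ∑ k ∈ nz M, (ir k j : ℝ) ^ 2 / nn (ir k) ^ 5 := by
    intro j
    refine Finset.sum_equiv (pe (Equiv.swap 0 j)) (fun k => ?_) (fun k _ => ?_)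
    · unfold nz
      simp only [mem_filter, mem_univ, true_and]
      apply not_congr
      constructor
      · rintro rfl
        funext i
        rfl
      · intro h
        funext i
        have h1 := congrFun h (Equiv.swap 0 j i)
        rw [pe_apply, Equiv.symm_apply_apply] at h1
        exact h1
    · rw [hnn]
      congr 2
      unfold ir
      rw [pe_apply, Equiv.symm_swap, Equiv.swap_apply_right]
  have e0 : 3 * ∑ k ∈ nz M, (ir k 0 : ℝ) ^ 2 / nn (ir k) ^ 5 =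
      ∑ k ∈ nz M, (∑ j, (ir k j : ℝ) ^ 2) / nn (ir k) ^ 5 := by
    rw [sum_congr rfl fun k _ => Finset.sum_div Finset.univ (fun j => (ir k j : ℝ) ^ 2)
      (nn (ir k) ^ 5), sum_comm, Fin.sum_univ_three, ← hp 1, ← hp 2]
    ring
  rw [e0]
  refine sum_congr rfl fun k hk => ?_
  have hk0 : k ≠ 0 := (mem_filter.1 hk).2
  have h1 := sum_sq_pos (ir_ne hk0)
  have h2 : nn (ir k) ^ 2 = ∑ j, (ir k j : ℝ) ^ 2 := Real.sq_sqrt h1.le
  have h3 : 0 < nn (ir k) := Real.sqrt_pos.2 h1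
  rw [← h2]
  field_simp

lemma ident (M : ℕ) [NeZero M] :
    (∑ k ∈ nz M, 2 * Real.sin (ang k 0) ^ 2 * VV M (en k)) / (M : ℝ) ^ 4 -
      1 / (12 * Real.pi ^ 2) * Real.log M =
    ∑ k ∈ nz M, FA M (ir k) + 1 / (M : ℝ) ^ 3 * ∑ k ∈ nz M, hh (kp M (ir k)) +
      1 / (48 * Real.pi ^ 3) * ((∑ k ∈ nz M, 1 / nn (ir k) ^ 3) - 4 * Real.pi * Real.log M) := by
  have hpi := Real.pi_pos
  have hM : (0 : ℝ) < M := by exact_mod_cast Nat.pos_of_ne_zero (NeZero.ne M)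
  have h1 : ∀ k ∈ nz M, 2 * Real.sin (ang k 0) ^ 2 * VV M (en k) / (M : ℝ) ^ 4 =
      FA M (ir k) + 1 / (M : ℝ) ^ 3 * hh (kp M (ir k)) +
        1 / (16 * Real.pi ^ 3) * ((ir k 0 : ℝ) ^ 2 / nn (ir k) ^ 5) := by
    intro k hk
    have hk0 : k ≠ 0 := (mem_filter.1 hk).2
    have h1 := sum_sq_pos (ir_ne hk0)
    have h3 : 0 < nn (ir k) := Real.sqrt_pos.2 h1
    have h4 : Real.sqrt (R2 (kp M (ir k))) = 2 * Real.pi / M * nn (ir k) := by
      rw [R2_kp, Real.sqrt_mul (sq_nonneg _), Real.sqrt_sq (by positivity)]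
      rfl
    have h5 : kp M (ir k) 0 = 2 * Real.pi / M * (ir k 0 : ℝ) := rfl
    have h6 : 1 / (M : ℝ) ^ 3 * (kp M (ir k) 0 ^ 2 / (2 * Real.sqrt (R2 (kp M (ir k))) ^ 5)) =
        1 / (16 * Real.pi ^ 3) * ((ir k 0 : ℝ) ^ 2 / nn (ir k) ^ 5) := by
      rw [h4, h5]
      field_simp
      ring
    rw [sin_eq, en_eq, ← h6]
    unfold FA hh
    generalize Real.cosh (EE (kp M (ir k))) / (4 * Real.sinh (EE (kp M (ir k))) ^ 5) = v
    generalize kp M (ir k) 0 ^ 2 / (2 * Real.sqrt (R2 (kp M (ir k))) ^ 5) = u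
    field_simp
    ring
  rw [sum_div, sum_congr rfl h1, sum_add_distrib, sum_add_distrib, ← mul_sum, ← mul_sum,
    ← symm3 M]
  field_simp
  ring

/-- **AF2-L1.** -/
theorem af_l1 : S_L1 := by
  rintro - ⟨C0, hC⟩ ⟨ρ, hρ⟩ hRS ⟨x3, hx3⟩ hTAN
  obtain ⟨x1, hx1⟩ := hTAN FA _ _ (fun n hn => FA_lim hρ n hn)
    (fun M n hn h => FA_bound hC M n hn h)
  obtain ⟨x2, hx2⟩ := hRS hh 618 hh_cont (fun x hx h0 => hh_bound hx h0)
  refine ⟨x1 + x2 + 1 / (48 * Real.pi ^ 3) * x3, ?_⟩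
  refine ((hx1.add hx2).add (hx3.const_mul (1 / (48 * Real.pi ^ 3)))).congr fun L => ?_
  exact (ident (L + 2)).symm

end

end Pool.Agent.Y98.AF
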