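import Pool.Agent.Y16.AF.StmB
import Pool.Agent.Y901.AF.En

/-!
# Project AF, part 2: facts about the energy as a function of real angles
-/

set_option autoImplicit false

open Filter
open scoped Topology

namespace Pool.Agent.Y98.AF

open Pool.Agent.Y16.AF
open Pool.Agent.Y901.AF (two_sub_le le_two_sub cos_quartic K1 K1_pos cosh_upper energy_facts
  low_bound)

noncomputable section

/-- `∑ (2 - 2 cos κ_j)` -/
def W2 (κ : Fin 3 → ℝ) : ℝ := ∑ j, (2 - 2 * Real.cos (κ j))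

/-- the energy -/
def EE (κ : Fin 3 → ℝ) : ℝ := 2 * Real.arsinh (Real.sqrt (W2 κ) / 2)

/-- the squared length -/
def R2 (κ : Fin 3 → ℝ) : ℝ := ∑ j, κ j ^ 2

/-- the angles of an integer point -/
def kp (M : ℕ) (n : Fin 3 → ℤ) : Fin 3 → ℝ := fun j => 2 * Real.pi / (M : ℝ) * (n j : ℝ)

lemma R2_nonneg (κ : Fin 3 → ℝ) : 0 ≤ R2 κ := Finset.sum_nonneg fun _ _ => sq_nonneg _

lemma R2_pos {κ : Fin 3 → ℝ} (h : κ ≠ 0) : 0 < R2 κ := by
  obtain ⟨j, hj⟩ : ∃ j, κ j ≠ 0 := by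
    by_contra hcon
    push Not at hcon
    exact h (funext hcon)
  exact Finset.sum_pos' (fun i _ => sq_nonneg _) ⟨j, Finset.mem_univ _, by positivity⟩

lemma sq_le_R2 (κ : Fin 3 → ℝ) (j : Fin 3) : κ j ^ 2 ≤ R2 κ :=
  Finset.single_le_sum (f := fun j => κ j ^ 2) (fun i _ => sq_nonneg _) (Finset.mem_univ j)

lemma W2_le (κ : Fin 3 → ℝ) : W2 κ ≤ R2 κ := Finset.sum_le_sum fun j _ => two_sub_le _

lemma W2_le12 (κ : Fin 3 → ℝ) : W2 κ ≤ 12 := by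
  unfold W2
  calc ∑ j, (2 - 2 * Real.cos (κ j)) ≤ ∑ _j : Fin 3, (4 : ℝ) := Finset.sum_le_sum fun j _ => by
          have := Real.neg_one_le_cos (κ j)
          linarith
      _ = 12 := by simp; norm_num

lemma W2_ge {κ : Fin 3 → ℝ} (h : ∀ j, |κ j| ≤ Real.pi) : 4 / Real.pi ^ 2 * R2 κ ≤ W2 κ := by
  unfold W2 R2
  rw [Finset.mul_sum]
  exact Finset.sum_le_sum fun j _ => le_two_sub _ (h j)

lemma W2_quart (κ : Fin 3 → ℝ) : R2 κ - W2 κ ≤ R2 κ ^ 2 := by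
  unfold W2 R2
  rw [← Finset.sum_sub_distrib]
  calc ∑ j, (κ j ^ 2 - (2 - 2 * Real.cos (κ j))) ≤ ∑ j, (κ j) ^ 4 :=
          Finset.sum_le_sum fun j _ => cos_quartic _
      _ = ∑ j, ((κ j) ^ 2) ^ 2 := Finset.sum_congr rfl fun j _ => by ring
      _ ≤ (∑ j, (κ j) ^ 2) ^ 2 := Finset.sum_sq_le_sq_sum_of_nonneg fun j _ => sq_nonneg _

lemma W2_pos {κ : Fin 3 → ℝ} (h : ∀ j, |κ j| ≤ Real.pi) (h0 : κ ≠ 0) : 0 < W2 κ :=
  lt_of_lt_of_le (mul_pos (by positivity) (R2_pos h0)) (W2_ge h)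

/-- the constant of the comparison of the energy with the momentum -/
def KM : ℝ := 1 + 9 * K1

lemma KM_pos : 0 < KM := by
  have := K1_pos
  unfold KM
  linarith

lemma EE_facts {κ : Fin 3 → ℝ} (hw0 : 0 < W2 κ) :
    0 < EE κ ∧ 2 * Real.cosh (EE κ) - 2 = W2 κ ∧ EE κ ≤ 3 ∧ W2 κ ≤ KM * EE κ ^ 2 := by
  obtain ⟨hE0, hcosh, hE3⟩ := energy_facts hw0 (W2_le12 κ) (show EE κ = _ from rfl)
  refine ⟨hE0, hcosh, hE3, ?_⟩
  have hup : W2 κ ≤ EE κ ^ 2 + K1 * EE κ ^ 4 := by rw [← hcosh]; exact cosh_upper hE0.le hE3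
  have hK := K1_pos
  have h1 : EE κ ^ 4 ≤ 9 * EE κ ^ 2 := by
    have : EE κ ^ 2 ≤ 9 := by nlinarith
    nlinarith [sq_nonneg (EE κ)]
  unfold KM
  nlinarith

/-- hyperbolic functions of the energy -/
lemma EE_hyp (κ : Fin 3 → ℝ) :
    Real.cosh (EE κ) = 2 * Real.cosh (EE κ / 2) ^ 2 - 1 ∧
    Real.sinh (EE κ) = Real.sqrt (W2 κ) * Real.cosh (EE κ / 2) ∧
    Real.cosh (EE κ / 2) ^ 2 = 1 + Real.sqrt (W2 κ) ^ 2 / 4 := by
  have h2 : Real.sinh (EE κ / 2) = Real.sqrt (W2 κ) / 2 := by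
    unfold EE
    rw [show 2 * Real.arsinh (Real.sqrt (W2 κ) / 2) / 2 = Real.arsinh (Real.sqrt (W2 κ) / 2) by ring,
      Real.sinh_arsinh]
  have h3 := Real.cosh_sq (EE κ / 2)
  have h1 := Real.cosh_two_mul (EE κ / 2)
  have h4 := Real.sinh_two_mul (EE κ / 2)
  rw [show 2 * (EE κ / 2) = EE κ by ring] at h1 h4
  refine ⟨?_, ?_, ?_⟩
  · rw [h1]
    linarith
  · rw [h4, h2]
    ring
  · rw [h3, h2]
    ring

/-- the elementary inequality -/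
lemma pointwise {s r c y S : ℝ} (hs : 0 < s) (hsr : s ≤ r) (hr : r ≤ 6) (hrs : r ≤ 2 * s)
    (hq : r ^ 2 - s ^ 2 ≤ r ^ 4) (hc1 : 1 ≤ c) (hc : c ^ 2 = 1 + s ^ 2 / 4) (hS0 : 0 ≤ S)
    (hS1 : S ≤ y ^ 2) (hS2 : y ^ 2 - S ≤ 5 / 4 * y ^ 4) (hy : y ^ 2 ≤ r ^ 2) :
    |2 * S * ((2 * c ^ 2 - 1) / (4 * (s * c) ^ 5)) - y ^ 2 / (2 * r ^ 5)| ≤ 618 / r ^ 2 := by
  have hr0 : 0 < r := lt_of_lt_of_le hs hsr
  have hc0 : 0 < c := by linarith
  -- first comparison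
  have g1 : (2 * c ^ 2 - 1) / (4 * (s * c) ^ 5) ≤ 1 / (4 * s ^ 5) := by
    rw [div_le_div_iff₀ (by positivity) (by positivity)]
    have h1 : 2 * c ^ 2 - 1 ≤ c ^ 5 := by
      have h2 : 2 * c ^ 2 - 1 ≤ c ^ 4 := by nlinarith [sq_nonneg (c ^ 2 - 1)]
      have h3 : c ^ 4 ≤ c ^ 5 := pow_le_pow_right₀ hc1 (by norm_num)
      linarith
    calc (2 * c ^ 2 - 1) * (4 * s ^ 5) ≤ c ^ 5 * (4 * s ^ 5) := by gcongr
      _ = 1 * (4 * (s * c) ^ 5) := by ring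
  have g2 : 1 / (4 * s ^ 5) - (2 * c ^ 2 - 1) / (4 * (s * c) ^ 5) ≤ 3 / (16 * s ^ 3) := by
    have h1 : c ^ 5 - (2 * c ^ 2 - 1) ≤ 3 * (c ^ 2 - 1) * c ^ 5 := by
      -- `1 - (2 t - 1) / c ^ 5 ≤ 3 (t - 1)`
      have h2 : c ^ 5 ≤ c ^ 6 := pow_le_pow_right₀ hc1 (by norm_num)
      have h3 : 1 ≤ c ^ 2 := one_le_pow₀ hc1
      have h4 : c ^ 5 - 1 ≤ 3 * (c ^ 2 - 1) * c ^ 5 := by
        have h5 : c ^ 5 * (1 - 3 * (c ^ 2 - 1)) ≤ 1 := by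
          by_cases h6 : 1 - 3 * (c ^ 2 - 1) ≤ 0
          · have : c ^ 5 * (1 - 3 * (c ^ 2 - 1)) ≤ 0 :=
              mul_nonpos_of_nonneg_of_nonpos (by positivity) h6
            linarith
          · push Not at h6
            have h7 : c ^ 5 * (1 - 3 * (c ^ 2 - 1)) ≤ c ^ 6 * (1 - 3 * (c ^ 2 - 1)) :=
              mul_le_mul_of_nonneg_right h2 h6.le
            have h8 : c ^ 6 * (1 - 3 * (c ^ 2 - 1)) ≤ 1 := by
              obtain ⟨t, ht⟩ : ∃ t, t = c ^ 2 - 1 := ⟨_, rfl⟩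
              have e : c ^ 6 = (1 + t) ^ 3 := by rw [ht]; ring
              have ht0 : 0 ≤ t := by rw [ht]; linarith
              rw [e, ← ht]
              nlinarith [pow_nonneg ht0 2, pow_nonneg ht0 3, pow_nonneg ht0 4]
            linarith
        linarith
      linarith
    have e : 1 / (4 * s ^ 5) - (2 * c ^ 2 - 1) / (4 * (s * c) ^ 5) =
        (c ^ 5 - (2 * c ^ 2 - 1)) / (4 * s ^ 5 * c ^ 5) := by
      field_simp
    rw [e, div_le_div_iff₀ (by positivity) (by positivity)]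
    have e2 : 3 * (c ^ 2 - 1) = 3 * s ^ 2 / 4 := by rw [hc]; ring
    rw [e2] at h1
    calc (c ^ 5 - (2 * c ^ 2 - 1)) * (16 * s ^ 3) ≤ (3 * s ^ 2 / 4 * c ^ 5) * (16 * s ^ 3) := by
          gcongr
      _ = 3 * (4 * s ^ 5 * c ^ 5) := by ring
  have hS3 : S ≤ r ^ 2 := hS1.trans hy
  have hs3 : r ^ 3 ≤ 8 * s ^ 3 := by
    calc r ^ 3 ≤ (2 * s) ^ 3 := pow_le_pow_left₀ hr0.le hrs 3
      _ = 8 * s ^ 3 := by ring
  have hs5 : r ^ 5 ≤ 32 * s ^ 5 := by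
    calc r ^ 5 ≤ (2 * s) ^ 5 := pow_le_pow_left₀ hr0.le hrs 5
      _ = 32 * s ^ 5 := by ring
  have t1 : |2 * S * ((2 * c ^ 2 - 1) / (4 * (s * c) ^ 5)) - S / (2 * s ^ 5)| ≤ 3 / r := by
    have e : 2 * S * ((2 * c ^ 2 - 1) / (4 * (s * c) ^ 5)) - S / (2 * s ^ 5) =
        -(2 * S * (1 / (4 * s ^ 5) - (2 * c ^ 2 - 1) / (4 * (s * c) ^ 5))) := by
      field_simp
      ring
    rw [e, abs_neg, abs_of_nonneg (mul_nonneg (by linarith) (by linarith))]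
    calc 2 * S * (1 / (4 * s ^ 5) - (2 * c ^ 2 - 1) / (4 * (s * c) ^ 5)) ≤
        2 * r ^ 2 * (3 / (16 * s ^ 3)) := by
          apply mul_le_mul (by linarith) g2 (by linarith) (by positivity)
      _ = 3 * r ^ 2 / (8 * s ^ 3) := by field_simp; ring
      _ ≤ 3 / r := by
          rw [div_le_div_iff₀ (by positivity) hr0]
          nlinarith
  have t2 : |S / (2 * s ^ 5) - y ^ 2 / (2 * s ^ 5)| ≤ 20 / r := by
    rw [← sub_div, abs_div, abs_of_pos (show 0 < 2 * s ^ 5 by positivity), abs_sub_comm,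
      abs_of_nonneg (by linarith), div_le_div_iff₀ (by positivity) hr0]
    have h1 : y ^ 4 ≤ r ^ 4 := by
      have : (y ^ 2) ^ 2 ≤ (r ^ 2) ^ 2 := pow_le_pow_left₀ (sq_nonneg y) hy 2
      calc y ^ 4 = (y ^ 2) ^ 2 := by ring
        _ ≤ (r ^ 2) ^ 2 := this
        _ = r ^ 4 := by ring
    calc (y ^ 2 - S) * r ≤ (5 / 4 * r ^ 4) * r := by gcongr; linarith
      _ = 5 / 4 * r ^ 5 := by ring
      _ ≤ 5 / 4 * (32 * s ^ 5) := by gcongr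
      _ = 20 * (2 * s ^ 5) := by ring
  have t3 : |y ^ 2 / (2 * s ^ 5) - y ^ 2 / (2 * r ^ 5)| ≤ 80 / r := by
    have hd : r - s ≤ r ^ 3 := by
      have h1 : (r - s) * r ≤ r ^ 3 * r := by nlinarith
      exact le_of_mul_le_mul_right h1 hr0
    have h5 : r ^ 5 - s ^ 5 ≤ 5 * r ^ 7 := by
      have h6 : r ^ 5 - s ^ 5 = (r - s) * (r ^ 4 + r ^ 3 * s + r ^ 2 * s ^ 2 + r * s ^ 3 + s ^ 4) := by
        ring
      have h7 : r ^ 4 + r ^ 3 * s + r ^ 2 * s ^ 2 + r * s ^ 3 + s ^ 4 ≤ 5 * r ^ 4 := by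
        have a1 : r ^ 3 * s ≤ r ^ 3 * r := by gcongr
        have a2 : r ^ 2 * s ^ 2 ≤ r ^ 2 * r ^ 2 := by gcongr
        have a3 : r * s ^ 3 ≤ r * r ^ 3 := by gcongr
        have a4 : s ^ 4 ≤ r ^ 4 := by gcongr
        nlinarith
      rw [h6]
      calc _ ≤ r ^ 3 * (5 * r ^ 4) := mul_le_mul hd h7 (by positivity) (by positivity)
        _ = 5 * r ^ 7 := by ring
    have h50 : 0 ≤ r ^ 5 - s ^ 5 := by
      have : s ^ 5 ≤ r ^ 5 := by gcongr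
      linarith
    have e : y ^ 2 / (2 * s ^ 5) - y ^ 2 / (2 * r ^ 5) =
        y ^ 2 * (r ^ 5 - s ^ 5) / (2 * s ^ 5 * r ^ 5) := by
      field_simp
    rw [e, abs_of_nonneg (by positivity), div_le_div_iff₀ (by positivity) hr0]
    calc y ^ 2 * (r ^ 5 - s ^ 5) * r ≤ r ^ 2 * (5 * r ^ 7) * r := by gcongr
      _ = 5 * r ^ 5 * r ^ 5 := by ring
      _ ≤ 5 * (32 * s ^ 5) * r ^ 5 := by gcongr
      _ = 80 * (2 * s ^ 5 * r ^ 5) := by ring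
  have t4 : |2 * S * ((2 * c ^ 2 - 1) / (4 * (s * c) ^ 5)) - y ^ 2 / (2 * r ^ 5)| ≤ 103 / r := by
    have e : 2 * S * ((2 * c ^ 2 - 1) / (4 * (s * c) ^ 5)) - y ^ 2 / (2 * r ^ 5) =
        (2 * S * ((2 * c ^ 2 - 1) / (4 * (s * c) ^ 5)) - S / (2 * s ^ 5)) +
        (S / (2 * s ^ 5) - y ^ 2 / (2 * s ^ 5)) + (y ^ 2 / (2 * s ^ 5) - y ^ 2 / (2 * r ^ 5)) := by
      ring
    rw [e]
    calc _ ≤ 3 / r + 20 / r + 80 / r :=
          (abs_add_le _ _).trans (add_le_add ((abs_add_le _ _).trans (add_le_add t1 t2)) t3)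
      _ = 103 / r := by ring
  refine t4.trans ?_
  rw [div_le_div_iff₀ hr0 (by positivity)]
  nlinarith

/-- the remainder function -/
def hh (κ : Fin 3 → ℝ) : ℝ :=
  2 * Real.sin (κ 0) ^ 2 * (Real.cosh (EE κ) / (4 * Real.sinh (EE κ) ^ 5)) -
    κ 0 ^ 2 / (2 * Real.sqrt (R2 κ) ^ 5)

lemma hh_bound {κ : Fin 3 → ℝ} (h : ∀ j, |κ j| ≤ Real.pi) (h0 : κ ≠ 0) :
    |hh κ| ≤ 618 / R2 κ := by
  have hR := R2_pos h0
  have hW := W2_pos h h0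
  obtain ⟨e1, e2, e3⟩ := EE_hyp κ
  have hpi := Real.pi_pos
  have hpi4 := Real.pi_le_four
  have hr2 : Real.sqrt (R2 κ) ^ 2 = R2 κ := Real.sq_sqrt hR.le
  have hs2 : Real.sqrt (W2 κ) ^ 2 = W2 κ := Real.sq_sqrt hW.le
  unfold hh
  rw [e1, e2]
  suffices hkey : |2 * Real.sin (κ 0) ^ 2 * ((2 * Real.cosh (EE κ / 2) ^ 2 - 1) /
      (4 * (Real.sqrt (W2 κ) * Real.cosh (EE κ / 2)) ^ 5)) -
        κ 0 ^ 2 / (2 * Real.sqrt (R2 κ) ^ 5)| ≤ 618 / Real.sqrt (R2 κ) ^ 2 by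
    rw [hr2] at hkey
    exact hkey
  refine pointwise (s := Real.sqrt (W2 κ)) (r := Real.sqrt (R2 κ)) (c := Real.cosh (EE κ / 2))
    (y := κ 0) (S := Real.sin (κ 0) ^ 2) (Real.sqrt_pos.2 hW) (Real.sqrt_le_sqrt (W2_le κ)) ?_ ?_
    ?_ (Real.one_le_cosh _) e3 (sq_nonneg _) ?_ ?_ ?_
  · rw [Real.sqrt_le_left (by norm_num)]
    have h1 : ∀ j, κ j ^ 2 ≤ Real.pi ^ 2 := fun j => by
      rw [← sq_abs]
      exact pow_le_pow_left₀ (abs_nonneg _) (h j) 2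
    have h2 : R2 κ ≤ 3 * Real.pi ^ 2 := by
      unfold R2
      rw [Fin.sum_univ_three]
      linarith [h1 0, h1 1, h1 2]
    have h3 := Real.pi_lt_d2
    nlinarith
  · have h1 := W2_ge h
    have h2 : R2 κ ≤ 4 * W2 κ := by
      have h3 : 1 / 4 * R2 κ ≤ 4 / Real.pi ^ 2 * R2 κ := by
        apply mul_le_mul_of_nonneg_right _ hR.le
        rw [div_le_div_iff₀ (by norm_num) (by positivity)]
        nlinarith
      linarith
    calc Real.sqrt (R2 κ) ≤ Real.sqrt (4 * W2 κ) := Real.sqrt_le_sqrt h2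
      _ = 2 * Real.sqrt (W2 κ) := by
        rw [Real.sqrt_mul (by norm_num), show (4 : ℝ) = 2 ^ 2 by norm_num,
          Real.sqrt_sq (by norm_num)]
  · rw [show Real.sqrt (R2 κ) ^ 4 = (Real.sqrt (R2 κ) ^ 2) ^ 2 by ring, hr2, hs2]
    exact W2_quart κ
  · have h1 := Real.cos_sq_add_sin_sq (κ 0) |>.symm
    have h2 := two_sub_le (κ 0)
    have h3 := Real.cos_le_one (κ 0)
    have h4 := Real.neg_one_le_cos (κ 0)
    nlinarith [sq_nonneg (1 - Real.cos (κ 0))]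
  · have h1 := Real.cos_sq_add_sin_sq (κ 0) |>.symm
    have h2 := two_sub_le (κ 0)
    have h5 := cos_quartic (κ 0)
    have h3 := Real.cos_le_one (κ 0)
    have h6 : (2 - 2 * Real.cos (κ 0)) ^ 2 ≤ (κ 0 ^ 2) ^ 2 :=
      pow_le_pow_left₀ (by linarith) h2 2
    nlinarith
  · rw [hr2]
    exact sq_le_R2 κ 0

lemma continuous_EE : Continuous EE := by
  unfold EE W2
  refine continuous_const.mul (Real.continuous_arsinh.comp ?_)
  fun_prop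

lemma continuous_R2 : Continuous R2 := by
  unfold R2
  fun_prop

lemma hh_cont : ContinuousOn hh ({x | ∀ j, |x j| ≤ Real.pi} \ {0}) := by
  unfold hh
  have hE := continuous_EE
  have hR := continuous_R2
  refine ContinuousOn.sub (ContinuousOn.mul (by fun_prop) (ContinuousOn.div ?_ ?_ ?_))
    (ContinuousOn.div ?_ ?_ ?_)
  · exact (Real.continuous_cosh.comp hE).continuousOn
  · exact (continuous_const.mul ((Real.continuous_sinh.comp hE).pow 5)).continuousOn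
  · rintro x ⟨hx, hx0⟩
    have := (EE_facts (W2_pos hx hx0)).1
    have := Real.sinh_pos_iff.2 this
    positivity
  · fun_prop
  · exact (continuous_const.mul ((Real.continuous_sqrt.comp hR).pow 5)).continuousOn
  · rintro x ⟨hx, hx0⟩
    have := Real.sqrt_pos.2 (R2_pos hx0)
    positivity

end

end Pool.Agent.Y98.AF
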